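import Mathlib

/-!
# Slice thickness indices and weakly compact perturbations of the identity: definitions
-/

set_option autoImplicit false

namespace Pool.Agent.Results.MP_2c23da_an.WeaklyCompactGap

variable (𝕜 : Type) [RCLike 𝕜] {X : Type} [NormedAddCommGroup X] [NormedSpace 𝕜 X]
  {Y : Type} [NormedAddCommGroup Y] [NormedSpace 𝕜 Y]

/-- An operator is weakly compact if the weak closure of the image of the closed unit ball is
compact in the weak topology. -/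
def IsWeaklyCompactOp (T : X →L[𝕜] Y) : Prop :=
  IsCompact (closure (toWeakSpace 𝕜 Y '' (T '' Metric.closedBall (0 : X) 1)))

/-- The slice `S(B_X, f, α) = {x ∈ B_X : Re f(x) > 1 - α}` of the closed unit ball. -/
def slice (f : StrongDual 𝕜 X) (α : ℝ) : Set X :=
  {x | ‖x‖ ≤ 1 ∧ 1 - α < RCLike.re (f x)}

/-- The weak-star slice `{f ∈ B_{X*} : Re f(x) > 1 - α}` of the dual unit ball. -/
def weakStarSlice (x : X) (α : ℝ) : Set (StrongDual 𝕜 X) :=
  {f | ‖f‖ ≤ 1 ∧ 1 - α < RCLike.re (f x)}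

variable (X)

/-- The slice index of thickness `T^s(X)`. -/
noncomputable def sliceThickness : ℝ :=
  sInf {r : ℝ | 0 < r ∧ ∃ x : X, ‖x‖ = 1 ∧ ∃ f : StrongDual 𝕜 X, ‖f‖ = 1 ∧
    ∃ α : ℝ, 0 < α ∧ slice 𝕜 f α ⊆ Metric.closedBall x r}

/-- The weak-star slice index of thickness `T^s_{w*}(X*)` of the dual. -/
noncomputable def weakStarSliceThickness : ℝ :=
  sInf {r : ℝ | 0 < r ∧ ∃ f : StrongDual 𝕜 X, ‖f‖ = 1 ∧ ∃ x : X, ‖x‖ = 1 ∧
    ∃ α : ℝ, 0 < α ∧ weakStarSlice 𝕜 x α ⊆ Metric.closedBall f r}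

/-- `W(X)`: the infimum of `‖T + I‖` over weakly compact operators `T` on `X` of norm one. -/
noncomputable def W : ℝ :=
  sInf {c : ℝ | ∃ T : X →L[𝕜] X, ‖T‖ = 1 ∧ IsWeaklyCompactOp 𝕜 T ∧
    c = ‖T + ContinuousLinearMap.id 𝕜 X‖}

end Pool.Agent.Results.MP_2c23da_an.WeaklyCompactGap
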