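import Pool.Agent.Lib_MP_2c23da_an.Defs

/-!
# Weakly compact perturbations of the identity and slice thickness indices

For a Banach space `X` over `𝕜` (real or complex) let `W(X)` be the infimum of `‖T + I‖` over the
weakly compact operators `T` on `X` with `‖T‖ = 1`, and let `T^s(X)`, `T^s_{w*}(X*)` be the slice
index of thickness of `X` and the weak-star slice index of thickness of its dual.  The question is
whether `W(X) = max {T^s(X), T^s_{w*}(X*)}` for every Banach space.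

We show that this fails in the strongest possible way: for every `ε > 0` there is a Banach space
`X` (a renorming of `C[0,1]`) with `T^s(X) = T^s_{w*}(X*) = 0` and `W(X) ≥ 2 - ε`.

Outline.
* `exists_small_of_weaklyCompact`: a weakly compact operator cannot be bounded below on a
  weakly unconditionally Cauchy sequence (gliding hump).
* `daugavet`: the Daugavet equation `‖T + I‖ = 1 + ‖T‖` for weakly compact `T` on `C[0,1]`.
* `norm_add_id_of_iso`: the equation survives, up to constants, under isomorphisms.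
* `exists_renorm`: the norm `max (c ‖y‖, sqrt (|e*(y)|² + δ² ‖y - e*(y) e‖²))`; it is close to the
  original norm, it is Fréchet smooth at `e`, and `e` is strongly exposed by `e*`.
* `sliceThickness_eq_zero`, `weakStarSliceThickness_eq_zero`: both indices vanish for it.
-/

set_option autoImplicit false

open Filter Topology

namespace Pool.Agent.Results.MP_2c23da_an.WeaklyCompactGap


variable {𝕜 : Type} [RCLike 𝕜] {X : Type} [NormedAddCommGroup X] [NormedSpace 𝕜 X]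
  {Y : Type} [NormedAddCommGroup Y] [NormedSpace 𝕜 Y]

/-- A weakly compact operator sends a weakly unconditionally Cauchy sequence to vectors that
are not bounded away from zero. -/
theorem exists_small_of_weaklyCompact {T : X →L[𝕜] Y} (hT : IsWeaklyCompactOp 𝕜 T)
    (g : ℕ → X) (C : ℝ)
    (hg : ∀ (F : Finset ℕ) (θ : ℕ → 𝕜), (∀ k, ‖θ k‖ ≤ 1) → ‖∑ k ∈ F, θ k • g k‖ ≤ C)
    {ε : ℝ} (hε : 0 < ε) : ∃ k, ‖T (g k)‖ < ε := by
  by_contra hcon
  push Not at hcon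
  have hC0 : 0 ≤ C := by
    have := hg ∅ 0 (by simp)
    simpa using this
  set M : ℝ := ‖T‖ * C with hM
  -- bound on sums of functionals
  have hsum : ∀ (y : StrongDual 𝕜 Y), ‖y‖ ≤ 1 → ∀ F : Finset ℕ,
      ∑ k ∈ F, ‖y (T (g k))‖ ≤ M := by
    intro y hy F
    choose θ hθ1 hθ2 using fun k => RCLike.exists_norm_eq_mul_self (y (T (g k)))
    have h1 : ((∑ k ∈ F, ‖y (T (g k))‖ : ℝ) : 𝕜) = y (T (∑ k ∈ F, θ k • g k)) := by
      push_cast
      rw [map_sum, map_sum]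
      refine Finset.sum_congr rfl fun k _ => ?_
      rw [map_smul, map_smul, smul_eq_mul]
      exact hθ2 k
    have h2 : ‖((∑ k ∈ F, ‖y (T (g k))‖ : ℝ) : 𝕜)‖ ≤ M := by
      rw [h1]
      calc ‖y (T (∑ k ∈ F, θ k • g k))‖ ≤ ‖y‖ * ‖T (∑ k ∈ F, θ k • g k)‖ := y.le_opNorm _
        _ ≤ 1 * (‖T‖ * ‖∑ k ∈ F, θ k • g k‖) := by
            gcongr
            exact T.le_opNorm _
        _ ≤ 1 * (‖T‖ * C) := by
            gcongr
            exact hg F θ (fun k => (hθ1 k).le)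
        _ = M := by rw [hM]; ring
    have h3 : 0 ≤ ∑ k ∈ F, ‖y (T (g k))‖ := Finset.sum_nonneg fun _ _ => norm_nonneg _
    rwa [RCLike.norm_ofReal, abs_of_nonneg h3] at h2
  have hsummable : ∀ (y : StrongDual 𝕜 Y), ‖y‖ ≤ 1 → Summable fun k => ‖y (T (g k))‖ := by
    intro y hy
    exact summable_of_sum_le (fun _ => norm_nonneg _) (hsum y hy)
  -- norming functionals
  choose y hy1 hy2 using fun k => exists_dual_vector'' 𝕜 (T (g k))
  -- a weak-star cluster point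
  have hball : IsCompact ((WeakDual.toStrongDual (𝕜 := 𝕜) (E := Y)) ⁻¹' Metric.closedBall (0 : StrongDual 𝕜 Y) 1) :=
    WeakDual.isCompact_closedBall (0 : StrongDual 𝕜 Y) 1
  obtain ⟨z, hz1, hz2⟩ := hball.exists_mapClusterPt (f := atTop)
    (u := fun k => StrongDual.toWeakDual (y k))
    (by
      refine tendsto_principal.2 (Eventually.of_forall fun k => ?_)
      simp [hy1 k])
  -- the relation for the gliding hump
  set r : ℕ → ℕ → Prop := fun a b => a < b ∧ ‖y b (T (g a)) - z (T (g a))‖ ≤ ε / 16 * (1 / 2) ^ a ∧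
    ∀ F : Finset ℕ, (∀ j ∈ F, b ≤ j) → ∑ j ∈ F, ‖y a (T (g j))‖ ≤ ε / 8 with hr
  obtain ⟨f, -, hf⟩ := exists_seq_of_forall_finset_exists (fun _ : ℕ => True) r (by
    intro s _
    have h1 : ∀ᶠ b in atTop, ∀ a ∈ s, a < b := by
      rw [Finset.eventually_all]
      exact fun a _ => eventually_gt_atTop a
    have h2 : ∀ᶠ b : ℕ in atTop, ∀ a ∈ s, ∀ F : Finset ℕ, (∀ j ∈ F, b ≤ j) →
        ∑ j ∈ F, ‖y a (T (g j))‖ ≤ ε / 8 := by
      rw [Finset.eventually_all]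
      intro a _
      obtain ⟨t, ht⟩ := summable_iff_vanishing_norm.1 (hsummable (y a) (hy1 a)) (ε / 8) (by positivity)
      obtain ⟨N, hN⟩ := t.exists_nat_subset_range
      filter_upwards [eventually_ge_atTop N] with b hb F hF
      have := ht F (by
        rw [Finset.disjoint_left]
        intro j hj hjt
        have h3 := hF j hj
        have h4 := Finset.mem_range.1 (hN hjt)
        omega)
      exact (le_abs_self _).trans this.le
    have h3 : ∃ᶠ b in atTop, ∀ a ∈ s, ‖y b (T (g a)) - z (T (g a))‖ ≤ ε / 16 * (1 / 2) ^ a := by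
      have h4 : ∀ᶠ w in 𝓝 z, ∀ a ∈ s, ‖w (T (g a)) - z (T (g a))‖ ≤ ε / 16 * (1 / 2) ^ a := by
        rw [Finset.eventually_all]
        intro a _
        have h5 : Tendsto (fun w : WeakDual 𝕜 Y => ‖w (T (g a)) - z (T (g a))‖) (𝓝 z) (𝓝 0) := by
          have h6 : Continuous (fun w : WeakDual 𝕜 Y => ‖w (T (g a)) - z (T (g a))‖) :=
            ((WeakDual.eval_continuous (T (g a))).sub continuous_const).norm
          have h7 := h6.tendsto z
          simpa using h7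
        exact (h5.eventually (gt_mem_nhds (by positivity : (0:ℝ) < ε / 16 * (1 / 2) ^ a))).mono
          fun w hw => le_of_lt hw
      exact hz2.frequently h4
    obtain ⟨b, hb3, hb1, hb2⟩ := (h3.and_eventually (h1.and h2)).exists
    exact ⟨b, trivial, fun a ha => ⟨hb1 a ha, hb3 a ha, hb2 a ha⟩⟩)
  have hfmono : StrictMono f := strictMono_nat_of_lt_succ fun n => (hf n (n + 1) (Nat.lt_succ_self n)).1
  -- the weak sum
  set v : ℕ → Y := fun n => ∑ l ∈ Finset.range n, T (g (f l)) with hv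
  obtain ⟨V, hV⟩ : ∃ V : Y, ∀ w : StrongDual 𝕜 Y, ‖w‖ ≤ 1 → HasSum (fun l => w (T (g (f l)))) (w V) := by
    have hmem : ∀ n, toWeakSpace 𝕜 Y (((C + 1 : ℝ) : 𝕜)⁻¹ • v n) ∈
        closure (toWeakSpace 𝕜 Y '' (T '' Metric.closedBall (0 : X) 1)) := by
      intro n
      apply subset_closure
      refine ⟨_, ⟨((C + 1 : ℝ) : 𝕜)⁻¹ • ∑ l ∈ Finset.range n, g (f l), ?_, rfl⟩, ?_⟩
      · rw [mem_closedBall_zero_iff, norm_smul, norm_inv, RCLike.norm_ofReal,
          abs_of_nonneg (by positivity)]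
        have h1 : ‖∑ l ∈ Finset.range n, g (f l)‖ ≤ C := by
          have := hg ((Finset.range n).map ⟨f, hfmono.injective⟩) (fun _ => 1) (by simp)
          simpa using this
        rw [inv_mul_le_iff₀ (by positivity)]
        linarith
      · rw [map_smul, map_sum]
    obtain ⟨V', -, hV'⟩ := IsCompact.exists_mapClusterPt (f := atTop) hT
      (u := fun n => toWeakSpace 𝕜 Y (((C + 1 : ℝ) : 𝕜)⁻¹ • v n))
      (by
        exact tendsto_principal.2 (Eventually.of_forall hmem))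
    refine ⟨((C + 1 : ℝ) : 𝕜) • (toWeakSpace 𝕜 Y).symm V', fun w hw => ?_⟩
    have hs : Summable fun l => ‖w (T (g (f l)))‖ := (hsummable w hw).comp_injective hfmono.injective
    have hs' : Summable fun l => w (T (g (f l))) := hs.of_norm
    have hcont : Continuous fun x : WeakSpace 𝕜 Y => w ((toWeakSpace 𝕜 Y).symm x) :=
      WeakBilin.eval_continuous (topDualPairing 𝕜 Y).flip w
    have h1 : MapClusterPt (w ((toWeakSpace 𝕜 Y).symm V')) atTop
        (fun n => w (((C + 1 : ℝ) : 𝕜)⁻¹ • v n)) := by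
      have := hV'.continuousAt_comp (hcont.continuousAt (x := V'))
      simpa [Function.comp_def] using this
    have h2 : Tendsto (fun n => w (((C + 1 : ℝ) : 𝕜)⁻¹ • v n)) atTop
        (𝓝 (((C + 1 : ℝ) : 𝕜)⁻¹ • ∑' l, w (T (g (f l))))) := by
      have h3 : (fun n => w (((C + 1 : ℝ) : 𝕜)⁻¹ • v n)) =
          fun n => ((C + 1 : ℝ) : 𝕜)⁻¹ • ∑ l ∈ Finset.range n, w (T (g (f l))) := by
        funext n
        rw [map_smul, hv, map_sum]
      rw [h3]
      exact (hs'.hasSum.tendsto_sum_nat).const_smul _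
    have h4 : w ((toWeakSpace 𝕜 Y).symm V') = ((C + 1 : ℝ) : 𝕜)⁻¹ • ∑' l, w (T (g (f l))) := by
      have h5 : ClusterPt (w ((toWeakSpace 𝕜 Y).symm V'))
          (𝓝 (((C + 1 : ℝ) : 𝕜)⁻¹ • ∑' l, w (T (g (f l))))) := ClusterPt.mono h1 h2
      exact eq_of_nhds_neBot h5
    have h6 : ((C + 1 : ℝ) : 𝕜) ≠ 0 := by
      rw [Ne, RCLike.ofReal_eq_zero]
      positivity
    rw [map_smul, h4, smul_smul, mul_inv_cancel₀ h6, one_smul]
    exact hs'.hasSum
  -- a weak-star cluster point of the subsequence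
  obtain ⟨z', hz1', hz2'⟩ := hball.exists_mapClusterPt (f := atTop)
    (u := fun n => StrongDual.toWeakDual (y (f n)))
    (by
      refine tendsto_principal.2 (Eventually.of_forall fun k => ?_)
      simp [hy1 (f k)])
  have hz1n : ‖WeakDual.toStrongDual z'‖ ≤ 1 := by simpa using hz1'
  have hz'close : ∀ l, ‖z' (T (g (f l))) - z (T (g (f l)))‖ ≤ ε / 16 * (1 / 2) ^ (f l) := by
    intro l
    by_contra hlt
    push Not at hlt
    have h1 : ∀ᶠ w in 𝓝 z', ε / 16 * (1 / 2) ^ (f l) < ‖w (T (g (f l))) - z (T (g (f l)))‖ := by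
      have h6 : Continuous (fun w : WeakDual 𝕜 Y => ‖w (T (g (f l))) - z (T (g (f l)))‖) :=
        ((WeakDual.eval_continuous (T (g (f l)))).sub continuous_const).norm
      exact h6.continuousAt.eventually (lt_mem_nhds hlt)
    obtain ⟨n, hn1, hn2⟩ := ((hz2'.frequently h1).and_eventually (eventually_gt_atTop l)).exists
    exact absurd (hf l n hn2).2.1 (not_le.2 hn1)
  -- evaluate at V
  have hz's : Summable fun l => ‖z' (T (g (f l)))‖ :=
    (hsummable (WeakDual.toStrongDual z') hz1n).comp_injective hfmono.injective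
  obtain ⟨t, ht⟩ := summable_iff_vanishing_norm.1 hz's (ε / 8) (by positivity)
  obtain ⟨N, hN⟩ := t.exists_nat_subset_range
  have htail : ∀ F : Finset ℕ, (∀ j ∈ F, N ≤ j) → ∑ j ∈ F, ‖z' (T (g (f j)))‖ ≤ ε / 8 := by
    intro F hF
    have := ht F (by
        rw [Finset.disjoint_left]
        intro j hj hjt
        have h3 := hF j hj
        have h4 := Finset.mem_range.1 (hN hjt)
        omega)
    exact (le_abs_self _).trans this.le
  have hkey : ∀ n, N ≤ n → ε / 2 ≤ ‖y (f n) V - z' V‖ := by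
    intro n hn
    have h1 : HasSum (fun l => y (f n) (T (g (f l))) - z' (T (g (f l)))) (y (f n) V - z' V) :=
      (hV (y (f n)) (hy1 _)).sub (hV (WeakDual.toStrongDual z') hz1n)
    -- partial sums bound
    have h2 : ∀ m, n < m → ε / 2 ≤ ‖∑ l ∈ Finset.range m, (y (f n) (T (g (f l))) - z' (T (g (f l))))‖ := by
      intro m hm
      have hsplit : ∑ l ∈ Finset.range m, (y (f n) (T (g (f l))) - z' (T (g (f l)))) =
          (y (f n) (T (g (f n)))) + (∑ l ∈ Finset.range n, (y (f n) (T (g (f l))) - z' (T (g (f l)))) +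
          (∑ l ∈ Finset.Ico (n + 1) m, y (f n) (T (g (f l))) - ∑ l ∈ Finset.Ico n m, z' (T (g (f l))))) := by
        rw [← Finset.sum_range_add_sum_Ico _ hm.le, Finset.sum_sub_distrib (s := Finset.Ico n m),
          Finset.sum_eq_sum_Ico_succ_bot hm (fun l => y (f n) (T (g (f l))))]
        ring
      have hA : ‖∑ l ∈ Finset.range n, (y (f n) (T (g (f l))) - z' (T (g (f l))))‖ ≤ ε / 4 := by
        calc ‖∑ l ∈ Finset.range n, (y (f n) (T (g (f l))) - z' (T (g (f l))))‖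
            ≤ ∑ l ∈ Finset.range n, ‖y (f n) (T (g (f l))) - z' (T (g (f l)))‖ := norm_sum_le _ _
          _ ≤ ∑ l ∈ Finset.range n, ε / 8 * (1 / 2) ^ l := by
              refine Finset.sum_le_sum fun l hl => ?_
              have h3 := (hf l n (Finset.mem_range.1 hl)).2.1
              have h4 := hz'close l
              have h5 : ((1:ℝ) / 2) ^ (f l) ≤ (1 / 2) ^ l :=
                pow_le_pow_of_le_one (by norm_num) (by norm_num) (hfmono.le_apply)
              calc ‖y (f n) (T (g (f l))) - z' (T (g (f l)))‖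
                  = ‖(y (f n) (T (g (f l))) - z (T (g (f l)))) -
                      (z' (T (g (f l))) - z (T (g (f l))))‖ := by congr 1; ring
                _ ≤ ‖y (f n) (T (g (f l))) - z (T (g (f l)))‖ +
                      ‖z' (T (g (f l))) - z (T (g (f l)))‖ := norm_sub_le _ _
                _ ≤ ε / 16 * (1 / 2) ^ (f l) + ε / 16 * (1 / 2) ^ (f l) := add_le_add h3 h4
                _ = ε / 8 * (1 / 2) ^ (f l) := by ring
                _ ≤ ε / 8 * (1 / 2) ^ l := by gcongr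
          _ = ε / 8 * ∑ l ∈ Finset.range n, (1 / 2 : ℝ) ^ l := by rw [Finset.mul_sum]
          _ ≤ ε / 8 * 2 := by
              gcongr
              have h6 := (summable_geometric_two).sum_le_tsum (Finset.range n) (fun _ _ => by positivity)
              rw [tsum_geometric_two] at h6
              exact h6
          _ = ε / 4 := by ring
      have hB : ‖∑ l ∈ Finset.Ico (n + 1) m, y (f n) (T (g (f l)))‖ ≤ ε / 8 := by
        calc ‖∑ l ∈ Finset.Ico (n + 1) m, y (f n) (T (g (f l)))‖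
            ≤ ∑ l ∈ Finset.Ico (n + 1) m, ‖y (f n) (T (g (f l)))‖ := norm_sum_le _ _
          _ = ∑ j ∈ (Finset.Ico (n + 1) m).map ⟨f, hfmono.injective⟩, ‖y (f n) (T (g j))‖ := by
              rw [Finset.sum_map]; rfl
          _ ≤ ε / 8 := by
              apply (hf n (n + 1) (Nat.lt_succ_self n)).2.2
              intro j hj
              obtain ⟨l, hl, rfl⟩ := Finset.mem_map.1 hj
              exact hfmono.monotone (Finset.mem_Ico.1 hl).1
      have hC : ‖∑ l ∈ Finset.Ico n m, z' (T (g (f l)))‖ ≤ ε / 8 := by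
        refine (norm_sum_le _ _).trans (htail _ fun j hj => ?_)
        exact hn.trans (Finset.mem_Ico.1 hj).1
      have hD : ε ≤ ‖y (f n) (T (g (f n)))‖ := by
        rw [hy2, RCLike.norm_ofReal, abs_of_nonneg (norm_nonneg _)]
        exact hcon _
      rw [hsplit]
      have h7 := norm_add_le (∑ l ∈ Finset.range n, (y (f n) (T (g (f l))) - z' (T (g (f l)))))
          (∑ l ∈ Finset.Ico (n + 1) m, y (f n) (T (g (f l))) - ∑ l ∈ Finset.Ico n m, z' (T (g (f l))))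
      have h8 := norm_sub_le (∑ l ∈ Finset.Ico (n + 1) m, y (f n) (T (g (f l))))
          (∑ l ∈ Finset.Ico n m, z' (T (g (f l))))
      have h9 := norm_sub_le ((y (f n) (T (g (f n)))) + (∑ l ∈ Finset.range n, (y (f n) (T (g (f l))) - z' (T (g (f l)))) +
          (∑ l ∈ Finset.Ico (n + 1) m, y (f n) (T (g (f l))) - ∑ l ∈ Finset.Ico n m, z' (T (g (f l))))))
          (∑ l ∈ Finset.range n, (y (f n) (T (g (f l))) - z' (T (g (f l)))) +
          (∑ l ∈ Finset.Ico (n + 1) m, y (f n) (T (g (f l))) - ∑ l ∈ Finset.Ico n m, z' (T (g (f l)))))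
      rw [add_sub_cancel_right] at h9
      linarith
    have h3 := (h1.tendsto_sum_nat).norm
    exact ge_of_tendsto h3 ((eventually_gt_atTop n).mono h2)
  have hfreq : ∃ᶠ n in atTop, ‖y (f n) V - z' V‖ < ε / 2 := by
    have h1 : ∀ᶠ w in 𝓝 z', ‖w V - z' V‖ < ε / 2 := by
      have h6 : Continuous (fun w : WeakDual 𝕜 Y => ‖w V - z' V‖) :=
        ((WeakDual.eval_continuous V).sub continuous_const).norm
      have h7 := h6.tendsto z'
      simp only [sub_self, norm_zero] at h7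
      exact h7.eventually (gt_mem_nhds (by positivity))
    exact hz2'.frequently h1
  obtain ⟨n, hn1, hn2⟩ := (hfreq.and_eventually (eventually_ge_atTop N)).exists
  exact absurd (hkey n hn2) (not_le.2 hn1)

/-- **Daugavet equation** for weakly compact operators on `C([0,1], 𝕜)`. -/
theorem daugavet (T : C(unitInterval, 𝕜) →L[𝕜] C(unitInterval, 𝕜))
    (hT : IsWeaklyCompactOp 𝕜 T) :
    1 + ‖T‖ ≤ ‖T + ContinuousLinearMap.id 𝕜 C(unitInterval, 𝕜)‖ := by
  refine le_of_forall_pos_le_add fun ε' hε' => ?_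
  obtain ⟨ε, hε, rfl⟩ : ∃ ε : ℝ, 0 < ε ∧ ε' = 2 * ε := ⟨ε' / 2, by positivity, by ring⟩
  -- a function almost attaining the norm
  obtain ⟨f₀, hf₀, hTf₀⟩ := T.exists_lt_apply_of_lt_opNorm (r := ‖T‖ - ε) (by linarith)
  obtain ⟨t, ht⟩ : ∃ t, ‖T‖ - ε < ‖T f₀ t‖ := by
    by_contra hcon
    push Not at hcon
    rcases le_or_gt 0 (‖T‖ - ε) with h0 | h0
    · exact absurd ((ContinuousMap.norm_le _ h0).2 hcon) (not_le.2 hTf₀)
    · have := hcon 0
      linarith [norm_nonneg (T f₀ 0)]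
  obtain ⟨θ, hθ1, hθ2⟩ := RCLike.exists_norm_eq_mul_self (T f₀ t)
  set f := θ • f₀ with hf
  have hf1 : ‖f‖ ≤ 1 := by rw [hf, norm_smul, hθ1, one_mul]; exact hf₀.le
  have hTf : ‖T‖ - ε < RCLike.re (T f t) := by
    have h1 : T f t = ((‖T f₀ t‖ : ℝ) : 𝕜) := by
      rw [hf, map_smul, ContinuousMap.smul_apply, smul_eq_mul, hθ2]
    rw [h1, RCLike.ofReal_re]
    exact ht
  -- an open set where the image is large
  set U : Set unitInterval := {s | ‖T‖ - ε < RCLike.re (T f s)} with hU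
  have hUo : IsOpen U := isOpen_lt continuous_const (RCLike.continuous_re.comp (T f).continuous)
  have hUinf : U.Infinite := infinite_of_mem_nhds t (hUo.mem_nhds hTf)
  have : Infinite U := hUinf.to_subtype
  obtain ⟨V, hVinf, hVo, hVd⟩ := exists_seq_infinite_isOpen_pairwise_disjoint U
  choose s hs using fun n => (hVinf n).nonempty
  -- bumps
  have hW : ∀ n, IsOpen ((↑) '' V n : Set unitInterval) := fun n => hUo.isOpenMap_subtype_val _ (hVo n)
  have hbump : ∀ n, ∃ φ : C(unitInterval, ℝ), Set.EqOn φ 0 ((↑) '' V n : Set unitInterval)ᶜ ∧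
      Set.EqOn φ 1 {(s n : unitInterval)} ∧ ∀ x, φ x ∈ Set.Icc (0 : ℝ) 1 := by
    intro n
    refine exists_continuous_zero_one_of_isClosed (hW n).isClosed_compl isClosed_singleton ?_
    rw [Set.disjoint_singleton_right]
    intro h
    exact h ⟨s n, hs n, rfl⟩
  choose φ hφ0 hφ1 hφI using hbump
  set g : ℕ → C(unitInterval, 𝕜) := fun n =>
    ⟨fun x => (1 - f x) * ((φ n x : ℝ) : 𝕜),
      (continuous_const.sub f.continuous).mul (RCLike.continuous_ofReal.comp (φ n).continuous)⟩ with hg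
  have hfx : ∀ x, ‖f x‖ ≤ 1 := fun x => (f.norm_coe_le_norm x).trans hf1
  have hφd : ∀ x m n, m ≠ n → φ m x = 0 ∨ φ n x = 0 := by
    intro x m n hmn
    by_contra hcon
    push Not at hcon
    have h1 : x ∈ ((↑) '' V m : Set unitInterval) := by
      by_contra h; exact hcon.1 (hφ0 m h)
    have h2 : x ∈ ((↑) '' V n : Set unitInterval) := by
      by_contra h; exact hcon.2 (hφ0 n h)
    obtain ⟨a, ha, rfl⟩ := h1
    obtain ⟨b, hb, hab⟩ := h2
    have : a = b := Subtype.ext hab.symm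
    subst this
    exact Set.disjoint_left.1 (hVd hmn) ha hb
  obtain ⟨k, hk⟩ := exists_small_of_weaklyCompact hT g 2 (by
    intro F θ' hθ'
    rw [ContinuousMap.norm_le _ (by norm_num)]
    intro x
    rw [ContinuousMap.sum_apply]
    have hgx : ∀ n, ‖(θ' n • g n) x‖ ≤ 2 := by
      intro n
      rw [ContinuousMap.smul_apply, norm_smul]
      have h1 : ‖g n x‖ ≤ 2 := by
        simp only [hg, ContinuousMap.coe_mk, norm_mul, RCLike.norm_ofReal]
        have h2 : ‖1 - f x‖ ≤ 2 := by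
          calc ‖1 - f x‖ ≤ ‖(1 : 𝕜)‖ + ‖f x‖ := norm_sub_le _ _
            _ ≤ 1 + 1 := by rw [norm_one]; gcongr; exact hfx x
            _ = 2 := by norm_num
        have h3 : |φ n x| ≤ 1 := by rw [abs_of_nonneg (hφI n x).1]; exact (hφI n x).2
        calc ‖1 - f x‖ * |φ n x| ≤ 2 * 1 := by gcongr
          _ = 2 := by norm_num
      calc ‖θ' n‖ * ‖g n x‖ ≤ 1 * 2 := by gcongr; exact hθ' n
        _ = 2 := by norm_num
    by_cases hex : ∃ n ∈ F, φ n x ≠ 0
    · obtain ⟨n, hnF, hn⟩ := hex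
      rw [Finset.sum_eq_single n]
      · exact hgx n
      · intro m _ hmn
        have : φ m x = 0 := (hφd x m n hmn).resolve_right hn
        simp [hg, this]
      · intro h; exact absurd hnF h
    · push Not at hex
      rw [Finset.sum_eq_zero]
      · simp
      · intro m hm
        simp [hg, hex m hm]) hε
  -- the new function
  have hfg : ‖f + g k‖ ≤ 1 := by
    rw [ContinuousMap.norm_le _ (by norm_num)]
    intro x
    have h1 : (f + g k) x = (1 - ((φ k x : ℝ) : 𝕜)) * f x + ((φ k x : ℝ) : 𝕜) := by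
      simp only [hg, ContinuousMap.add_apply, ContinuousMap.coe_mk]; ring
    rw [h1]
    have h2 : (1 - ((φ k x : ℝ) : 𝕜)) = ((1 - φ k x : ℝ) : 𝕜) := by push_cast; ring
    have h3 := (hφI k x).1
    have h4 := (hφI k x).2
    calc ‖(1 - ((φ k x : ℝ) : 𝕜)) * f x + ((φ k x : ℝ) : 𝕜)‖
        ≤ ‖(1 - ((φ k x : ℝ) : 𝕜)) * f x‖ + ‖((φ k x : ℝ) : 𝕜)‖ := norm_add_le _ _
      _ = (1 - φ k x) * ‖f x‖ + φ k x := by
          rw [h2, norm_mul, RCLike.norm_ofReal, RCLike.norm_ofReal, abs_of_nonneg h3,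
            abs_of_nonneg (by linarith : 0 ≤ 1 - φ k x)]
      _ ≤ (1 - φ k x) * 1 + φ k x := by
          gcongr
          exact hfx x
      _ = 1 := by ring
  have hval : 1 + ‖T‖ - 2 * ε ≤ ‖(T + ContinuousLinearMap.id 𝕜 C(unitInterval, 𝕜)) (f + g k)‖ := by
    have h1 : (f + g k) (s k : unitInterval) = 1 := by
      have h2 : φ k (s k : unitInterval) = 1 := hφ1 k rfl
      simp [hg, h2]
    have h3 : ‖T‖ - ε < RCLike.re (T f (s k : unitInterval)) := (s k).2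
    have h4 : ‖T (g k) (s k : unitInterval)‖ < ε := ((T (g k)).norm_coe_le_norm _).trans_lt hk
    have h5 : -ε < RCLike.re (T (g k) (s k : unitInterval)) := by
      have := RCLike.abs_re_le_norm (T (g k) (s k : unitInterval))
      have := neg_abs_le (RCLike.re (T (g k) (s k : unitInterval)))
      linarith
    have h6 : ((T + ContinuousLinearMap.id 𝕜 C(unitInterval, 𝕜)) (f + g k)) (s k : unitInterval) =
        T f (s k : unitInterval) + T (g k) (s k : unitInterval) + 1 := by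
      rw [add_apply, ContinuousLinearMap.id_apply, ContinuousMap.add_apply, h1,
        map_add, ContinuousMap.add_apply]
    calc 1 + ‖T‖ - 2 * ε ≤ RCLike.re (T f (s k : unitInterval) + T (g k) (s k : unitInterval) + 1) := by
          rw [map_add, map_add, RCLike.one_re]; linarith
      _ ≤ ‖T f (s k : unitInterval) + T (g k) (s k : unitInterval) + 1‖ := RCLike.re_le_norm _
      _ = ‖((T + ContinuousLinearMap.id 𝕜 C(unitInterval, 𝕜)) (f + g k)) (s k : unitInterval)‖ := by rw [h6]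
      _ ≤ _ := ContinuousMap.norm_coe_le_norm _ _
  have hle : ‖(T + ContinuousLinearMap.id 𝕜 C(unitInterval, 𝕜)) (f + g k)‖ ≤
      ‖T + ContinuousLinearMap.id 𝕜 C(unitInterval, 𝕜)‖ := by
    calc _ ≤ ‖T + ContinuousLinearMap.id 𝕜 C(unitInterval, 𝕜)‖ * ‖f + g k‖ :=
          ContinuousLinearMap.le_opNorm _ _
      _ ≤ ‖T + ContinuousLinearMap.id 𝕜 C(unitInterval, 𝕜)‖ * 1 := by gcongr
      _ = _ := mul_one _
  linarith

/-- Weak compactness of operators is invariant under isomorphisms. -/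
theorem isWeaklyCompactOp_conj (Φ : Y ≃L[𝕜] X) {b : ℝ} (hb : 0 < b) (hΦ : ∀ y, ‖Φ y‖ ≤ b * ‖y‖)
    {T : X →L[𝕜] X} (hT : IsWeaklyCompactOp 𝕜 T) :
    IsWeaklyCompactOp 𝕜
      ((Φ.symm : X →L[𝕜] Y) ∘L T ∘L (Φ : Y →L[𝕜] X)) := by
  set m : WeakSpace 𝕜 X → WeakSpace 𝕜 Y := fun x =>
    (b : 𝕜) • WeakSpace.map (Φ.symm : X →L[𝕜] Y) x with hm
  have hmc : Continuous m := (WeakSpace.map (Φ.symm : X →L[𝕜] Y)).continuous.const_smul _
  have hK := hT.image hmc
  refine hK.of_isClosed_subset isClosed_closure (closure_minimal ?_ hK.isClosed)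
  rintro _ ⟨_, ⟨y, hy, rfl⟩, rfl⟩
  rw [mem_closedBall_zero_iff] at hy
  have hb' : (b : 𝕜) ≠ 0 := by
    rw [Ne, RCLike.ofReal_eq_zero]; exact hb.ne'
  refine ⟨toWeakSpace 𝕜 X (T ((b : 𝕜)⁻¹ • Φ y)), subset_closure ⟨_, ⟨_, ?_, rfl⟩, rfl⟩, ?_⟩
  · rw [mem_closedBall_zero_iff, norm_smul, norm_inv, RCLike.norm_ofReal, abs_of_pos hb,
      inv_mul_le_iff₀ hb]
    calc ‖Φ y‖ ≤ b * ‖y‖ := hΦ y
      _ ≤ b * 1 := by gcongr
  · change (b : 𝕜) • (Φ.symm (T ((b : 𝕜)⁻¹ • Φ y))) = Φ.symm (T (Φ y))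
    rw [map_smul, map_smul, smul_smul, mul_inv_cancel₀ hb', one_smul]

/-- Transfer of the Daugavet equation to an isomorphic space. -/
theorem norm_add_id_of_iso [CompleteSpace Y]
    (hY : ∀ T : Y →L[𝕜] Y, IsWeaklyCompactOp 𝕜 T → 1 + ‖T‖ ≤ ‖T + ContinuousLinearMap.id 𝕜 Y‖)
    (Φ : Y ≃L[𝕜] X) {a b : ℝ} (ha : 0 < a) (hb : 0 < b)
    (hΦ : ∀ y, ‖Φ y‖ ≤ b * ‖y‖) (hΦ' : ∀ x, ‖Φ.symm x‖ ≤ a * ‖x‖)
    (T : X →L[𝕜] X) (hT1 : ‖T‖ = 1) (hT : IsWeaklyCompactOp 𝕜 T) :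
    (a * b)⁻¹ * (1 + (a * b)⁻¹) ≤ ‖T + ContinuousLinearMap.id 𝕜 X‖ := by
  set S : Y →L[𝕜] Y := (Φ.symm : X →L[𝕜] Y) ∘L T ∘L (Φ : Y →L[𝕜] X) with hS
  have h1 := hY S (isWeaklyCompactOp_conj Φ hb hΦ hT)
  have h2 : ‖T‖ ≤ a * b * ‖S‖ := by
    refine T.opNorm_le_bound (by positivity) fun x => ?_
    have h3 : T x = Φ (S (Φ.symm x)) := by simp [hS]
    calc ‖T x‖ = ‖Φ (S (Φ.symm x))‖ := by rw [h3]
      _ ≤ b * ‖S (Φ.symm x)‖ := hΦ _
      _ ≤ b * (‖S‖ * ‖Φ.symm x‖) := by gcongr; exact S.le_opNorm _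
      _ ≤ b * (‖S‖ * (a * ‖x‖)) := by gcongr; exact hΦ' x
      _ = a * b * ‖S‖ * ‖x‖ := by ring
  have h4 : ‖S + ContinuousLinearMap.id 𝕜 Y‖ ≤ a * b * ‖T + ContinuousLinearMap.id 𝕜 X‖ := by
    refine ContinuousLinearMap.opNorm_le_bound _ (by positivity) fun y => ?_
    have h3 : (S + ContinuousLinearMap.id 𝕜 Y) y =
        Φ.symm ((T + ContinuousLinearMap.id 𝕜 X) (Φ y)) := by simp [hS]
    calc ‖(S + ContinuousLinearMap.id 𝕜 Y) y‖
        = ‖Φ.symm ((T + ContinuousLinearMap.id 𝕜 X) (Φ y))‖ := by rw [h3]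
      _ ≤ a * ‖(T + ContinuousLinearMap.id 𝕜 X) (Φ y)‖ := hΦ' _
      _ ≤ a * (‖T + ContinuousLinearMap.id 𝕜 X‖ * ‖Φ y‖) := by
          gcongr; exact ContinuousLinearMap.le_opNorm _ _
      _ ≤ a * (‖T + ContinuousLinearMap.id 𝕜 X‖ * (b * ‖y‖)) := by gcongr; exact hΦ y
      _ = a * b * ‖T + ContinuousLinearMap.id 𝕜 X‖ * ‖y‖ := by ring
  have hab : 0 < a * b := by positivity
  rw [hT1] at h2
  rw [inv_mul_le_iff₀ hab]
  have h5 : (a * b)⁻¹ ≤ ‖S‖ := by
    rw [inv_le_iff_one_le_mul₀ hab]; linarith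
  linarith

/-- The renorming: existence of a Banach space isomorphic to `Y` with the prescribed norm. -/
theorem exists_renorm [CompleteSpace Y] (e : Y) (es : StrongDual 𝕜 Y) (he : ‖e‖ = 1)
    (hes : ‖es‖ ≤ 1) {c δ : ℝ} (hc : 0 < c) (hc1 : c ≤ 1) (hδ : 0 < δ) :
    ∃ (X : Type) (_ : NormedAddCommGroup X) (_ : NormedSpace 𝕜 X) (Φ : Y ≃L[𝕜] X),
      CompleteSpace X ∧
      (∀ y, ‖Φ y‖ = max (c * ‖y‖) (√(‖es y‖ ^ 2 + (δ * ‖y - es y • e‖) ^ 2))) ∧
      (∀ y, ‖Φ y‖ ≤ (1 + 2 * δ) * ‖y‖) ∧ (∀ x, ‖Φ.symm x‖ ≤ c⁻¹ * ‖x‖) := by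
  let J : Y →ₗ[𝕜] Y × WithLp 2 (𝕜 × Y) :=
    { toFun := fun y => ((c : 𝕜) • y, WithLp.toLp 2 (es y, (δ : 𝕜) • (y - es y • e)))
      map_add' := fun x y => by
        refine Prod.ext (by simp) ?_
        simp only [Prod.snd_add, map_add]
        rw [← WithLp.toLp_add, Prod.mk_add_mk]
        congr 2
        module
      map_smul' := fun a x => by
        refine Prod.ext (by simp [smul_smul, mul_comm]) ?_
        simp only [Prod.smul_snd, map_smul, RingHom.id_apply, smul_eq_mul]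
        rw [← WithLp.toLp_smul, Prod.smul_mk, smul_eq_mul]
        congr 2
        module }
  have hJ : ∀ y, ‖J y‖ = max (c * ‖y‖) (√(‖es y‖ ^ 2 + (δ * ‖y - es y • e‖) ^ 2)) := by
    intro y
    change ‖(((c : 𝕜) • y, WithLp.toLp 2 (es y, (δ : 𝕜) • (y - es y • e))) :
      Y × WithLp 2 (𝕜 × Y))‖ = _
    rw [Prod.norm_mk, WithLp.prod_norm_eq_of_L2, norm_smul, RCLike.norm_ofReal, abs_of_pos hc]
    simp only [WithLp.toLp_fst, WithLp.toLp_snd]
    rw [norm_smul, RCLike.norm_ofReal, abs_of_pos hδ]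
  have hJ1 : ∀ y, c * ‖y‖ ≤ ‖J y‖ := fun y => by rw [hJ]; exact le_max_left _ _
  have hesy : ∀ y, ‖es y‖ ≤ ‖y‖ := fun y => by
    calc ‖es y‖ ≤ ‖es‖ * ‖y‖ := es.le_opNorm y
      _ ≤ 1 * ‖y‖ := by gcongr
      _ = ‖y‖ := one_mul _
  have hproj : ∀ y, ‖y - es y • e‖ ≤ 2 * ‖y‖ := fun y => by
    calc ‖y - es y • e‖ ≤ ‖y‖ + ‖es y • e‖ := norm_sub_le _ _
      _ = ‖y‖ + ‖es y‖ := by rw [norm_smul, he, mul_one]
      _ ≤ ‖y‖ + ‖y‖ := by gcongr; exact hesy y
      _ = 2 * ‖y‖ := by ring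
  have hJ2 : ∀ y, ‖J y‖ ≤ (1 + 2 * δ) * ‖y‖ := by
    intro y
    rw [hJ]
    refine max_le ?_ ?_
    · gcongr
      linarith
    · rw [Real.sqrt_le_left (by positivity)]
      have h1 := hesy y
      have h2 := hproj y
      have h3 : δ * ‖y - es y • e‖ ≤ δ * (2 * ‖y‖) := by gcongr
      calc ‖es y‖ ^ 2 + (δ * ‖y - es y • e‖) ^ 2 ≤ ‖y‖ ^ 2 + (δ * (2 * ‖y‖)) ^ 2 := by gcongr
        _ ≤ ((1 + 2 * δ) * ‖y‖) ^ 2 := by nlinarith [sq_nonneg ‖y‖, mul_pos hδ hδ, norm_nonneg y]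
  have hinj : Function.Injective J := by
    rw [injective_iff_map_eq_zero]
    intro y hy
    have := hJ1 y
    rw [hy, norm_zero] at this
    have h2 : ‖y‖ ≤ 0 := by
      by_contra h
      push Not at h
      have := mul_pos hc h
      linarith
    exact norm_le_zero_iff.1 h2
  let E : Y ≃ₗ[𝕜] LinearMap.range J := LinearEquiv.ofInjective J hinj
  have hE : ∀ y, ‖E y‖ = ‖J y‖ := fun y => rfl
  have hE2 : ∀ x : LinearMap.range J, ‖E.symm x‖ ≤ c⁻¹ * ‖x‖ := by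
    intro x
    obtain ⟨y, rfl⟩ := E.surjective x
    rw [E.symm_apply_apply, hE, le_inv_mul_iff₀ hc]
    exact hJ1 y
  let Φ : Y ≃L[𝕜] LinearMap.range J := E.toContinuousLinearEquivOfBounds (1 + 2 * δ) c⁻¹
    (fun y => by rw [hE]; exact hJ2 y) hE2
  refine ⟨LinearMap.range J, inferInstance, inferInstance, Φ, ?_, fun y => hJ y, fun y => hJ2 y, hE2⟩
  exact (completeSpace_congr (e := Φ.toEquiv) Φ.isUniformEmbedding).1 inferInstance

/-- If the set defining an index contains all positive reals, the index vanishes. -/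
theorem sInf_eq_zero_of_forall {S : Set ℝ} (h1 : ∀ r ∈ S, 0 < r) (h2 : ∀ r : ℝ, 0 < r → r ∈ S) :
    sInf S = 0 := by
  have : S = Set.Ioi 0 := Set.Subset.antisymm h1 h2
  rw [this, csInf_Ioi]

/-- The functional `es ∘ Φ⁻¹` has norm one. -/
theorem norm_functional (e : Y) (es : StrongDual 𝕜 Y)
    (hee : es e = 1) {c δ : ℝ} (he : ‖e‖ = 1) (hc1 : c ≤ 1)
    (Φ : Y ≃L[𝕜] X)
    (hΦ : ∀ y, ‖Φ y‖ = max (c * ‖y‖) (√(‖es y‖ ^ 2 + (δ * ‖y - es y • e‖) ^ 2))) :
    ‖Φ e‖ = 1 ∧ ‖es ∘L (Φ.symm : X →L[𝕜] Y)‖ = 1 ∧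
      (es ∘L (Φ.symm : X →L[𝕜] Y)) (Φ e) = 1 := by
  have h1 : ‖Φ e‖ = 1 := by
    rw [hΦ, hee, he]
    simp [hc1]
  have h2 : (es ∘L (Φ.symm : X →L[𝕜] Y)) (Φ e) = 1 := by simp [hee]
  refine ⟨h1, le_antisymm ?_ ?_, h2⟩
  · refine ContinuousLinearMap.opNorm_le_bound _ zero_le_one fun x => ?_
    obtain ⟨y, rfl⟩ := Φ.surjective x
    have h3 : (es ∘L (Φ.symm : X →L[𝕜] Y)) (Φ y) = es y := by simp
    rw [h3, one_mul, hΦ]
    refine le_max_of_le_right (Real.le_sqrt_of_sq_le ?_)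
    nlinarith [sq_nonneg (δ * ‖y - es y • e‖)]
  · have h3 := (es ∘L (Φ.symm : X →L[𝕜] Y)).le_opNorm (Φ e)
    rw [h2, h1, norm_one, mul_one] at h3
    exact h3

theorem sliceThickness_eq_zero (e : Y) (es : StrongDual 𝕜 Y) (he : ‖e‖ = 1)
    (hee : es e = 1) {c δ b : ℝ} (hc1 : c ≤ 1) (hδ : 0 < δ) (hb : 0 < b)
    (Φ : Y ≃L[𝕜] X)
    (hΦ : ∀ y, ‖Φ y‖ = max (c * ‖y‖) (√(‖es y‖ ^ 2 + (δ * ‖y - es y • e‖) ^ 2)))
    (hΦb : ∀ y, ‖Φ y‖ ≤ b * ‖y‖) : sliceThickness 𝕜 X = 0 := by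
  obtain ⟨h1, h2, h3⟩ := norm_functional e es hee he hc1 Φ hΦ
  refine sInf_eq_zero_of_forall (fun r hr => hr.1) fun r hr => ⟨hr, Φ e, h1, _, h2, ?_⟩
  -- choice of the width
  set κ : ℝ := r / (b * (1 / δ + 1)) with hκ
  have hκ0 : 0 < κ := by positivity
  refine ⟨κ ^ 2 / 2, by positivity, ?_⟩
  rintro x ⟨hx1, hx2⟩
  obtain ⟨y, rfl⟩ := Φ.surjective x
  have h4 : (es ∘L (Φ.symm : X →L[𝕜] Y)) (Φ y) = es y := by simp
  rw [h4] at hx2
  have h5 : ‖es y‖ ^ 2 + (δ * ‖y - es y • e‖) ^ 2 ≤ 1 := by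
    have h6 : √(‖es y‖ ^ 2 + (δ * ‖y - es y • e‖) ^ 2) ≤ 1 := by
      refine le_trans ?_ hx1
      rw [hΦ]; exact le_max_right _ _
    rwa [Real.sqrt_le_one] at h6
  have hre : RCLike.re (es y) ≤ ‖es y‖ := RCLike.re_le_norm _
  have hes1 : ‖es y‖ ≤ 1 := by
    nlinarith [sq_nonneg (δ * ‖y - es y • e‖), norm_nonneg (es y)]
  have h6 : δ * ‖y - es y • e‖ ≤ κ := by
    refine le_of_sq_le_sq ?_ hκ0.le
    nlinarith [norm_nonneg (es y)]
  have h7 : ‖es y - 1‖ ≤ κ := by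
    refine le_of_sq_le_sq ?_ hκ0.le
    have h8 : ‖es y - 1‖ ^ 2 = ‖es y‖ ^ 2 - 2 * RCLike.re (es y) + 1 := by
      rw [← RCLike.normSq_eq_def', ← RCLike.normSq_eq_def', RCLike.normSq_sub]
      simp
      ring
    nlinarith [norm_nonneg (es y)]
  rw [Metric.mem_closedBall, dist_eq_norm, ← map_sub]
  have h9 : ‖y - e‖ ≤ κ * (1 / δ + 1) := by
    calc ‖y - e‖ = ‖(y - es y • e) + (es y - 1) • e‖ := by
          congr 1; module
      _ ≤ ‖y - es y • e‖ + ‖(es y - 1) • e‖ := norm_add_le _ _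
      _ = ‖y - es y • e‖ + ‖es y - 1‖ := by rw [norm_smul, he, mul_one]
      _ ≤ κ * (1 / δ) + κ := by
          gcongr
          rw [mul_one_div, le_div_iff₀ hδ]
          linarith
      _ = κ * (1 / δ + 1) := by ring
  calc ‖Φ (y - e)‖ ≤ b * ‖y - e‖ := hΦb _
    _ ≤ b * (κ * (1 / δ + 1)) := by gcongr
    _ = r := by
        rw [hκ]
        field_simp

theorem weakStarSliceThickness_eq_zero (e : Y) (es : StrongDual 𝕜 Y) (he : ‖e‖ = 1)
    (hes : ‖es‖ ≤ 1)
    (hee : es e = 1) {c δ a : ℝ} (hc : 0 < c) (hc1 : c < 1) (hδ : 0 < δ) (ha : 0 < a)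
    (Φ : Y ≃L[𝕜] X)
    (hΦ : ∀ y, ‖Φ y‖ = max (c * ‖y‖) (√(‖es y‖ ^ 2 + (δ * ‖y - es y • e‖) ^ 2)))
    (hΦa : ∀ x, ‖Φ.symm x‖ ≤ a * ‖x‖) : weakStarSliceThickness 𝕜 X = 0 := by
  obtain ⟨h1, h2, h3⟩ := norm_functional e es hee he hc1.le Φ hΦ
  refine sInf_eq_zero_of_forall (fun r hr => hr.1) fun r hr => ⟨hr, _, h2, Φ e, h1, ?_⟩
  set f₀ : StrongDual 𝕜 X := es ∘L (Φ.symm : X →L[𝕜] Y) with hf₀
  set D : ℝ := 1 + 4 * δ ^ 2 with hD
  have hD0 : 0 < D := by positivity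
  obtain ⟨ρ, hρ0, hρ1, hρ2, hρ3⟩ : ∃ ρ : ℝ, 0 < ρ ∧ ρ ≤ 1 / 2 ∧ ρ ≤ (1 - c) / 2 ∧
      a * ((1 + D) * ρ) ≤ r := by
    refine ⟨min (min (1 / 2) ((1 - c) / 2)) (r / (a * (1 + D))), ?_, ?_, ?_, ?_⟩
    · refine lt_min (lt_min (by norm_num) (by linarith)) (by positivity)
    · exact (min_le_left _ _).trans (min_le_left _ _)
    · exact (min_le_left _ _).trans (min_le_right _ _)
    · have h4 : min (min (1 / 2) ((1 - c) / 2)) (r / (a * (1 + D))) ≤ r / (a * (1 + D)) :=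
        min_le_right _ _
      calc a * ((1 + D) * min (min (1 / 2) ((1 - c) / 2)) (r / (a * (1 + D))))
          ≤ a * ((1 + D) * (r / (a * (1 + D)))) := by gcongr
        _ = r := by field_simp
  refine ⟨ρ ^ 2, by positivity, ?_⟩
  rintro f ⟨hf1, hf2⟩
  -- smoothness of the norm at `Φ e`
  have hesy : ∀ y, ‖es y‖ ≤ ‖y‖ := fun y => by
    calc ‖es y‖ ≤ ‖es‖ * ‖y‖ := es.le_opNorm y
      _ ≤ 1 * ‖y‖ := by gcongr
      _ = ‖y‖ := one_mul _
  have hproj : ∀ y, ‖y - es y • e‖ ≤ 2 * ‖y‖ := fun y => by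
    calc ‖y - es y • e‖ ≤ ‖y‖ + ‖es y • e‖ := norm_sub_le _ _
      _ = ‖y‖ + ‖es y‖ := by rw [norm_smul, he, mul_one]
      _ ≤ ‖y‖ + ‖y‖ := by gcongr; exact hesy y
      _ = 2 * ‖y‖ := by ring
  have hsmooth : ∀ y, ‖y‖ ≤ ρ → ‖Φ (e + y)‖ ≤ 1 + RCLike.re (es y) + D * ρ ^ 2 := by
    intro y hy
    have h4 := hesy y
    have h5 : |RCLike.re (es y)| ≤ ‖es y‖ := RCLike.abs_re_le_norm _
    have h6 := neg_abs_le (RCLike.re (es y))
    rw [hΦ]
    refine max_le ?_ ?_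
    · calc c * ‖e + y‖ ≤ c * (‖e‖ + ‖y‖) := by gcongr; exact norm_add_le _ _
        _ ≤ c * (1 + ρ) := by rw [he]; gcongr
        _ ≤ 1 - ρ := by nlinarith
        _ ≤ 1 + RCLike.re (es y) := by linarith
        _ ≤ _ := by
          have : 0 ≤ D * ρ ^ 2 := by positivity
          linarith
    · have h7 : es (e + y) = 1 + es y := by rw [map_add, hee]
      have h8 : e + y - es (e + y) • e = y - es y • e := by rw [h7]; module
      have h9 : ‖1 + es y‖ ^ 2 = 1 + 2 * RCLike.re (es y) + ‖es y‖ ^ 2 := by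
        rw [← RCLike.normSq_eq_def', ← RCLike.normSq_eq_def', RCLike.normSq_add]
        simp
        ring
      rw [h8, h7, h9]
      have h10 : δ * ‖y - es y • e‖ ≤ δ * (2 * ρ) := by
        have := hproj y
        gcongr
        linarith
      have h11 : (δ * ‖y - es y • e‖) ^ 2 ≤ (δ * (2 * ρ)) ^ 2 := by gcongr
      have h12 : ‖es y‖ ^ 2 ≤ ρ ^ 2 := by
        have : ‖es y‖ ≤ ρ := h4.trans hy
        gcongr
      have h13 : 1 / 2 ≤ 1 + RCLike.re (es y) := by linarith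
      rw [Real.sqrt_le_left (by positivity)]
      have h14 : 0 ≤ D * ρ ^ 2 := by positivity
      have h15 : ‖es y‖ ^ 2 + (δ * ‖y - es y • e‖) ^ 2 ≤ D * ρ ^ 2 := by
        rw [hD]; nlinarith
      nlinarith [sq_nonneg (RCLike.re (es y)), mul_nonneg h14 (by linarith : (0:ℝ) ≤ 1 + RCLike.re (es y) - 1/2)]
  have hre : ∀ y, ‖y‖ ≤ ρ → RCLike.re ((f - f₀) (Φ y)) ≤ (1 + D) * ρ ^ 2 := by
    intro y hy
    have h4 : RCLike.re (f (Φ (e + y))) ≤ ‖Φ (e + y)‖ := by
      calc RCLike.re (f (Φ (e + y))) ≤ ‖f (Φ (e + y))‖ := RCLike.re_le_norm _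
        _ ≤ ‖f‖ * ‖Φ (e + y)‖ := f.le_opNorm _
        _ ≤ 1 * ‖Φ (e + y)‖ := by gcongr
        _ = _ := one_mul _
    have h5 := hsmooth y hy
    have h6 : RCLike.re (f (Φ (e + y))) = RCLike.re (f (Φ e)) + RCLike.re (f (Φ y)) := by
      rw [map_add, map_add, map_add]
    have h7 : f₀ (Φ y) = es y := by simp [hf₀]
    have h8 : RCLike.re ((f - f₀) (Φ y)) = RCLike.re (f (Φ y)) - RCLike.re (es y) := by
      rw [sub_apply, h7, map_sub]
    rw [h8]
    linarith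
  rw [Metric.mem_closedBall, dist_eq_norm]
  refine le_trans ?_ hρ3
  refine ContinuousLinearMap.opNorm_le_bound _ (by positivity) fun x => ?_
  rcases eq_or_ne x 0 with rfl | hx
  · simp
  have hx0 : 0 < ‖x‖ := norm_pos_iff.2 hx
  obtain ⟨θ, hθ1, hθ2⟩ := RCLike.exists_norm_eq_mul_self ((f - f₀) x)
  set k : ℝ := ρ / (a * ‖x‖) with hk
  have hk0 : 0 < k := by positivity
  have h4 : ‖((k : 𝕜) * θ) • Φ.symm x‖ ≤ ρ := by
    rw [norm_smul, norm_mul, hθ1, mul_one, RCLike.norm_ofReal, abs_of_pos hk0]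
    calc k * ‖Φ.symm x‖ ≤ k * (a * ‖x‖) := by gcongr; exact hΦa x
      _ = ρ := by rw [hk]; field_simp
  have h5 := hre _ h4
  have h6 : (f - f₀) (Φ (((k : 𝕜) * θ) • Φ.symm x)) = ((k * ‖(f - f₀) x‖ : ℝ) : 𝕜) := by
    rw [map_smul, Φ.apply_symm_apply, map_smul, smul_eq_mul, mul_assoc, ← hθ2]
    push_cast
    rfl
  rw [h6, RCLike.ofReal_re, hk, div_mul_eq_mul_div, div_le_iff₀ (by positivity)] at h5
  have h7 : ρ * ‖(f - f₀) x‖ ≤ ρ * (a * ((1 + D) * ρ) * ‖x‖) := by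
    calc ρ * ‖(f - f₀) x‖ ≤ (1 + D) * ρ ^ 2 * (a * ‖x‖) := h5
      _ = _ := by ring
  exact le_of_mul_le_mul_left h7 hρ0

/-- Rank-one operators are weakly compact. -/
theorem rankOne_weaklyCompact (f : StrongDual 𝕜 X) (x : X) :
    IsWeaklyCompactOp 𝕜 (f.smulRight x) := by
  have hm : Continuous (fun t : 𝕜 => toWeakSpace 𝕜 X (t • x)) := by
    have h1 : Continuous (fun y : X => toWeakSpace 𝕜 X y) := (toWeakSpaceCLM 𝕜 X).continuous
    exact h1.comp (continuous_id.smul continuous_const)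
  have hK := (isCompact_closedBall (0 : 𝕜) ‖f‖).image hm
  refine hK.of_isClosed_subset isClosed_closure (closure_minimal ?_ hK.isClosed)
  rintro _ ⟨_, ⟨y, hy, rfl⟩, rfl⟩
  rw [mem_closedBall_zero_iff] at hy
  refine ⟨f y, ?_, by simp⟩
  rw [mem_closedBall_zero_iff]
  calc ‖f y‖ ≤ ‖f‖ * ‖y‖ := f.le_opNorm y
    _ ≤ ‖f‖ * 1 := by gcongr
    _ = ‖f‖ := mul_one _

end Pool.Agent.Results.MP_2c23da_an.WeaklyCompactGap
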